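import Pool.Agent.helper16.EXG.Spec

set_option autoImplicit false

open Finset

namespace Pool.Agent.EXC

theorem GF0_gen (F : Type) [Field F] [Finite F] : ∃ t : F, t ≠ 0 ∧ ∀ u : F, u ≠ 0 → ∃ k : ℕ, u = t ^ k := by
  obtain ⟨g, hg⟩ := IsCyclic.exists_generator (α := Fˣ)
  refine ⟨(g : F), g.ne_zero, fun u hu => ?_⟩
  have h1 := hg (Units.mk0 u hu)
  rw [← mem_powers_iff_mem_zpowers] at h1
  obtain ⟨k, hk⟩ := h1
  refine ⟨k, ?_⟩
  have h2 := congrArg (fun z : Fˣ => (z : F)) hk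
  simp only [Units.val_pow_eq_pow_val, Units.val_mk0] at h2
  exact h2.symm

/-- the conjugates of `y` of type `m = 0, -1` -/
theorem GF0_conj (n : ℕ) (C : Matrix (Fin n) (Fin n) ℤ) [IsC C] (F : Type) [Field F] (j0 : Fin n) (θ : Fin n → ℤ)
    (δ : Fin 5 → Fin n) (hE : IsE C j0 θ δ) (m : ℤ) (hm : m = 0 ∨ m = -1) (y : EG C F)
    (hy : CT C θ m 0 (y : Lm C F ≃ₗ[F] Lm C F)) (u v : Fin n → ℤ) (hu : ip C u u = 2) (hv : ip C v v = 2)
    (huv : ip C u v = m) (s : F) (hs : s ≠ 0) :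
    ∃ k : EG C F, ((k * y * k⁻¹ : EG C F) : Lm C F ≃ₗ[F] Lm C F) = XG C u 1 * XG C v s := by
  obtain ⟨hβ, -⟩ := f_NBR n C j0 θ δ hE
  obtain ⟨-, hEx, hcal, -⟩ := f_EXF n C F hβ
  obtain ⟨a, b, g, h, hT, hf, hg, hh, hgh⟩ := hy
  have hT2 : Tp C θ (E C u : Lm C F) (E C v) m := huv ▸ k_TPR n C F j0 θ δ hE u v hu hv
  have hTP := f_TPF n C F θ hE.th2 hβ (E C u) (E C v) m hT2
  have hT3 : Tp C θ ((1 : F) • (E C u : Lm C F)) (s • (E C v : Lm C F)) m := hTP.2.2.2.1 1 s one_ne_zero hs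
  have hTP3 := f_TPF n C F θ hE.th2 hβ _ _ m hT3
  have hf3 : fm C ((1 : F) • (E C u : Lm C F)) (s • (E C v : Lm C F)) = 0 := by
    by_contra hne
    have := hTP3.2.2.2.2.2.1.1 hne
    omega
  obtain ⟨k, hk, hka, hkb⟩ := k_CNJ n C F j0 θ δ hE a b _ _ m (by omega) hT hT3 (hf.trans hf3.symm)
  have hTa := f_TPF n C F θ hE.th2 hβ a b m hT
  have e1 := (hcal a hTa.1).2.2.2.2.2.2.2.1 k hk 1 g hg
  have e2 := (hcal b hTa.2.1).2.2.2.2.2.2.2.1 k hk 1 h hh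
  have i1 : k * g * k⁻¹ = XG C u 1 := by
    apply LinearEquiv.ext
    intro w
    rw [e1 w, hka, one_smul, (k_XGS n C F hβ u hu 1).1 w]
  have i2 : k * h * k⁻¹ = XG C v s := by
    apply LinearEquiv.ext
    intro w
    rw [e2 w, hkb, (f_XAU n C F (E C v) (hcal _ (hEx v hv)).1).2.2.2 s |>.2 1 w, mul_one, (k_XGS n C F hβ v hv s).1 w]
  refine ⟨⟨k, hk⟩, ?_⟩
  have e : ((⟨k, hk⟩ * y * (⟨k, hk⟩ : EG C F)⁻¹ : EG C F) : Lm C F ≃ₗ[F] Lm C F) = k * (y : Lm C F ≃ₗ[F] Lm C F) * k⁻¹ := rfl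
  rw [e, hgh, ← i1, ← i2]
  group

theorem GF0 (hGGN : GGN_stmt) (hGSN : GSN_stmt) : GF0_stmt := by
  intro n C _ F _ _ j0 θ δ hE m hm hCt y hy
  obtain ⟨hβ, -⟩ := f_NBR n C j0 θ δ hE
  obtain ⟨t, ht0, ht⟩ := GF0_gen F
  obtain ⟨l, u, v, hl, hlr, hu, hv, huv, hcl⟩ := hCt
  have hPL : ∀ P ∈ (l.map fun p => [(p.1, true), (p.2, true)]) ++ [[(u, true), (v, false)]],
      ∃ (p q : Fin n → ℤ) (bb : Bool), P = [(p, true), (q, bb)] ∧ ip C p p = 2 ∧ ip C q q = 2 ∧ ip C p q = m := by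
    intro P hP
    rw [List.mem_append] at hP
    rcases hP with hP | hP
    · rw [List.mem_map] at hP
      obtain ⟨p, hp, rfl⟩ := hP
      exact ⟨p.1, p.2, true, rfl, hlr p hp⟩
    · rw [List.mem_singleton] at hP
      exact ⟨u, v, false, hP, hu, hv, huv⟩
  have hlen : ((l.map fun p => [(p.1, true), (p.2, true)]) ++ [[(u, true), (v, false)]]).length = 5 := by
    rw [List.length_append, List.length_map, hl]
    rfl
  have hrt : ∀ P ∈ (l.map fun p => [(p.1, true), (p.2, true)]) ++ [[(u, true), (v, false)]], ∀ p ∈ P, ip C p.1 p.1 = 2 := by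
    intro P hP p hp
    obtain ⟨p', q', bb, rfl, h1, h2, -⟩ := hPL P hP
    simp only [List.mem_cons, List.not_mem_nil, or_false] at hp
    rcases hp with rfl | rfl
    · exact h1
    · exact h2
  have hprd2 : ∀ (p q : Fin n → ℤ) (bb : Bool), prd C t [(p, true), (q, bb)] = XG C p 1 * XG C q (if bb then (1 : F) else t) := by
    intro p q bb
    simp [prd]
  have hex : ∀ P ∈ (l.map fun p => [(p.1, true), (p.2, true)]) ++ [[(u, true), (v, false)]],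
      ∃ k : EG C F, ((k * y * k⁻¹ : EG C F) : Lm C F ≃ₗ[F] Lm C F) = prd C t P := by
    intro P hP
    obtain ⟨p', q', bb, rfl, h1, h2, h3⟩ := hPL P hP
    rw [hprd2]
    refine GF0_conj n C F j0 θ δ hE m hm y hy p' q' h1 h2 h3 _ ?_
    cases bb
    · simpa using ht0
    · simp
  generalize hLL : (l.map fun p => [(p.1, true), (p.2, true)]) ++ [[(u, true), (v, false)]] = PL at *
  have hex2 : ∀ i : Fin 5, ∃ k : EG C F, ((k * y * k⁻¹ : EG C F) : Lm C F ≃ₗ[F] Lm C F) = prd C t (PL.get (Fin.cast hlen.symm i)) :=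
    fun i => hex _ (List.get_mem _ _)
  choose g hg using hex2
  refine ⟨g, ?_⟩
  have hH : ∀ P ∈ PL, prd C t P ∈ (Subgroup.closure (Set.range fun i => g i * y * (g i)⁻¹)).map (GE C F).subtype := by
    intro P hP
    obtain ⟨i, rfl⟩ := List.mem_iff_get.1 hP
    refine ⟨g (Fin.cast hlen i) * y * (g (Fin.cast hlen i))⁻¹, Subgroup.subset_closure ⟨_, rfl⟩, ?_⟩
    exact hg (Fin.cast hlen i)
  have hS := hGSN n C F hβ PL [] t _ hrt hH (by simp)
  have hG := hGGN n C F j0 θ δ hE ((Subgroup.closure (Set.range fun i => g i * y * (g i)⁻¹)).map (GE C F).subtype)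
    (fun i => ⟨(hS _ (hcl i).1).2, (hS _ (hcl i).2).2⟩)
  have hlast : [(u, true), (v, false)] ∈ PL := by
    rw [← hLL]
    simp
  have hvt : XG C v t ∈ (Subgroup.closure (Set.range fun i => g i * y * (g i)⁻¹)).map (GE C F).subtype := by
    have h1 := hH _ hlast
    rw [hprd2] at h1
    have h2 := hG.1 u hu
    exact (Subgroup.mul_mem_cancel_left _ h2).1 h1
  have hfin := hG.2 v t hv hvt ht
  rw [eq_top_iff]
  intro x _
  obtain ⟨z, hz, hzx⟩ := hfin x.2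
  have : z = x := Subtype.ext hzx
  rw [← this]
  exact hz

end Pool.Agent.EXC
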